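import Pool.Agent.K3h48.RK.Stm

/-!
# The dual of a 1-projectional skeleton is a retractional skeleton of the dual ball
-/

set_option autoImplicit false

namespace Pool.Agent.K3h57.RK

open Set Topology Filter K3h48.RK

universe u w

theorem isCompact_DBall (X : Type u) [NormedAddCommGroup X] [NormedSpace ℝ X] :
    IsCompact (DBall X) := by
  have h : DBall X = WeakDual.toStrongDual ⁻¹' Metric.closedBall (0 : StrongDual ℝ X) 1 := by
    ext φ
    rw [mem_preimage, mem_closedBall_zero_iff]
    constructor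
    · intro h
      refine ContinuousLinearMap.opNorm_le_bound _ zero_le_one fun x => ?_
      rw [one_mul]
      exact h x
    · intro h x
      exact (ContinuousLinearMap.le_of_opNorm_le _ h x).trans_eq (one_mul _)
  rw [h]
  exact WeakDual.isCompact_closedBall 0 1

variable {X : Type u} [NormedAddCommGroup X] [NormedSpace ℝ X] {Γ : Type w}

/-- composition with the projection -/
noncomputable def R (P : Γ → X →L[ℝ] X) (hn : ∀ s, ‖P s‖ ≤ 1) (s : Γ) (φ : DBall X) : DBall X :=
  ⟨StrongDual.toWeakDual ((WeakDual.toStrongDual φ.1).comp (P s)), fun x => by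
    change |φ.1 (P s x)| ≤ ‖x‖
    refine (φ.2 (P s x)).trans ?_
    exact (ContinuousLinearMap.le_of_opNorm_le _ (hn s) x).trans_eq (one_mul _)⟩

theorem R_apply (P : Γ → X →L[ℝ] X) (hn : ∀ s, ‖P s‖ ≤ 1) (s : Γ) (φ : DBall X) (x : X) :
    (R P hn s φ).1 x = φ.1 (P s x) := rfl

theorem ext_ball {φ ψ : DBall X} (h : ∀ x, φ.1 x = ψ.1 x) : φ = ψ :=
  Subtype.ext (ContinuousLinearMap.ext h)

theorem cont_R (P : Γ → X →L[ℝ] X) (hn : ∀ s, ‖P s‖ ≤ 1) (s : Γ) : Continuous (R P hn s) := by
  refine Continuous.subtype_mk (WeakDual.continuous_of_continuous_eval fun x => ?_) _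
  exact (WeakDual.eval_continuous (P s x)).comp continuous_subtype_val

theorem tendsto_ball {α : Type*} {l : Filter α} {f : α → DBall X} {φ : DBall X}
    (h : ∀ x, Tendsto (fun a => (f a).1 x) l (𝓝 (φ.1 x))) : Tendsto f l (𝓝 φ) := by
  rw [tendsto_subtype_rng, tendsto_iff_forall_eval_tendsto_topDualPairing]
  exact h

theorem dual : K3h48.RK.t_DUAL.{u, w} := by
  intro X _ _ Γ _ P hP
  have hn := hP.norm_le
  have hpp : ∀ s x, P s (P s x) = P s x := fun s x =>
    congrArg (fun T : X →L[ℝ] X => T x) (hP.proj s)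
  have hle1 : ∀ s t, s ≤ t → ∀ x, P s (P t x) = P s x := fun s t hst x =>
    (congrArg (fun T : X →L[ℝ] X => T x) (hP.comp s t hst).1).symm
  have hle2 : ∀ s t, s ≤ t → ∀ x, P t (P s x) = P s x := fun s t hst x =>
    (congrArg (fun T : X →L[ℝ] X => T x) (hP.comp s t hst).2).symm
  have hcontr : ∀ s x, ‖P s x‖ ≤ ‖x‖ := fun s x =>
    (ContinuousLinearMap.le_of_opNorm_le _ (hn s) x).trans_eq (one_mul _)
  -- elements of the ranges
  have hrange : ∀ s (φ : DBall X), φ ∈ range (R P hn s) ↔ ∀ x, φ.1 (P s x) = φ.1 x := by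
    intro s φ
    constructor
    · rintro ⟨ψ, rfl⟩ x
      rw [R_apply, R_apply, hpp]
    · intro h
      exact ⟨φ, ext_ball fun x => h x⟩
  have : CompactSpace (DBall X) := isCompact_iff_compactSpace.mp (isCompact_DBall X)
  have hmem : ∀ φ : WeakDual ℝ X,
      φ ∈ (Subtype.val : DBall X → WeakDual ℝ X) '' ⋃ s, range (R P hn s) ↔
        φ ∈ DBall X ∧ ∃ s, ∀ x, φ (P s x) = φ x := by
    intro φ
    constructor
    · rintro ⟨ψ, hψ, rfl⟩
      obtain ⟨s, hs⟩ := mem_iUnion.mp hψ
      exact ⟨ψ.2, s, (hrange s ψ).mp hs⟩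
    · rintro ⟨h1, s, h2⟩
      exact ⟨⟨φ, h1⟩, mem_iUnion.mpr ⟨s, (hrange s ⟨φ, h1⟩).mpr h2⟩, rfl⟩
  refine ⟨R P hn, ⟨hP.nonempty, hP.directed, cont_R P hn, ?_, ?_, ?_, ?_, ?_⟩, ?_, ?_⟩
  · intro s φ
    exact ext_ball fun x => by rw [R_apply, R_apply, hpp, R_apply]
  · intro s
    have := hP.sep s
    have : Nonempty (range (P s)) := ⟨⟨P s 0, mem_range_self 0⟩⟩
    have : CompactSpace (range (R P hn s)) :=
      isCompact_iff_compactSpace.mp (isCompact_range (cont_R P hn s))
    let d : ℕ → range (P s) := TopologicalSpace.denseSeq (range (P s))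
    have hd : DenseRange d := TopologicalSpace.denseRange_denseSeq _
    let F : range (R P hn s) → (ℕ → ℝ) := fun φ i => φ.1.1 (d i : X)
    have hF : Continuous F := by
      refine continuous_pi fun i => ?_
      exact (WeakDual.eval_continuous (d i : X)).comp
        (continuous_subtype_val.comp continuous_subtype_val)
    have hFi : Function.Injective F := by
      intro φ ψ h
      have h1 : (fun y : range (P s) => φ.1.1 (y : X)) = fun y : range (P s) => ψ.1.1 (y : X) := by
        refine DenseRange.equalizer hd ?_ ?_ ?_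
        · exact (ContinuousLinearMap.continuous (WeakDual.toStrongDual φ.1.1)).comp
            continuous_subtype_val
        · exact (ContinuousLinearMap.continuous (WeakDual.toStrongDual ψ.1.1)).comp
            continuous_subtype_val
        · funext i
          exact congrFun h i
      apply Subtype.ext
      apply ext_ball
      intro x
      rw [← (hrange s φ.1).mp φ.2 x, ← (hrange s ψ.1).mp ψ.2 x]
      exact congrFun h1 ⟨P s x, mem_range_self x⟩
    exact (hF.isClosedEmbedding hFi).isEmbedding.metrizableSpace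
  · intro s t hst
    constructor
    · funext φ
      exact ext_ball fun x => by
        rw [Function.comp_apply, R_apply, R_apply, R_apply, hle2 s t hst]
    · funext φ
      exact ext_ball fun x => by
        rw [Function.comp_apply, R_apply, R_apply, R_apply, hle1 s t hst]
  · intro σ hσ
    obtain ⟨t, ht, hcl⟩ := hP.seq σ hσ
    refine ⟨t, ht, fun φ => tendsto_ball fun x => ?_⟩
    have hconv : Tendsto (fun n => P (σ n) x) atTop (𝓝 (P t x)) := by
      rw [Metric.tendsto_atTop]
      intro ε hε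
      have h1 : P t x ∈ closure (⋃ n, range (P (σ n))) := by
        rw [← hcl]
        exact mem_range_self x
      obtain ⟨y, hy, hyd⟩ := Metric.mem_closure_iff.mp h1 (ε / 2) (half_pos hε)
      obtain ⟨N, z, rfl⟩ := mem_iUnion.mp hy
      refine ⟨N, fun m hm => ?_⟩
      have h2 : σ m ≤ t := ht.1 (mem_range_self m)
      have h3 : P (σ m) (P t x) = P (σ m) x := hle1 _ _ h2 x
      have h4 : P (σ m) (P (σ N) z) = P (σ N) z := hle2 _ _ (hσ.monotone hm) z
      have h5 : P (σ m) x - P t x = P (σ m) (P t x - P (σ N) z) - (P t x - P (σ N) z) := by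
        rw [map_sub, h3, h4]
        abel
      rw [dist_eq_norm] at hyd
      rw [dist_eq_norm, h5]
      calc ‖P (σ m) (P t x - P (σ N) z) - (P t x - P (σ N) z)‖ ≤
          ‖P (σ m) (P t x - P (σ N) z)‖ + ‖P t x - P (σ N) z‖ := norm_sub_le _ _
        _ ≤ ‖P t x - P (σ N) z‖ + ‖P t x - P (σ N) z‖ := by
            have := hcontr (σ m) (P t x - P (σ N) z)
            linarith
        _ < ε := by linarith
    have h6 := ((ContinuousLinearMap.continuous (WeakDual.toStrongDual φ.1)).tendsto (P t x)).comp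
      hconv
    exact h6
  · intro φ
    refine tendsto_ball fun x => ?_
    obtain ⟨s₀, y, hy⟩ := hP.union x
    refine tendsto_const_nhds.congr' ?_
    filter_upwards [eventually_ge_atTop s₀] with s hs
    rw [R_apply, ← hy, hle2 s₀ s hs]
  · intro φ hφ ψ hψ a b ha hb hab
    rw [hmem] at hφ hψ ⊢
    obtain ⟨h1, s, h2⟩ := hφ
    obtain ⟨h3, t, h4⟩ := hψ
    obtain ⟨q, hsq, htq⟩ := hP.directed s t
    have e : ∀ x, (a • φ + b • ψ) x = a * φ x + b * ψ x := fun x => rfl
    refine ⟨fun x => ?_, q, fun x => ?_⟩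
    · rw [e]
      have h5 := h1 x
      have h6 := h3 x
      calc |a * φ x + b * ψ x| ≤ |a * φ x| + |b * ψ x| := abs_add_le _ _
        _ = a * |φ x| + b * |ψ x| := by rw [abs_mul, abs_mul, abs_of_nonneg ha, abs_of_nonneg hb]
        _ ≤ a * ‖x‖ + b * ‖x‖ :=
            add_le_add (mul_le_mul_of_nonneg_left h5 ha) (mul_le_mul_of_nonneg_left h6 hb)
        _ = ‖x‖ := by rw [← add_mul, hab, one_mul]
    · have h5 : φ (P q x) = φ x := by rw [← h2, hle1 s q hsq, h2]
      have h6 : ψ (P q x) = ψ x := by rw [← h4, hle1 t q htq, h4]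
      rw [e, e, h5, h6]
  · intro φ hφ
    rw [hmem] at hφ ⊢
    obtain ⟨h1, s, h2⟩ := hφ
    refine ⟨fun x => ?_, s, fun x => ?_⟩
    · have h3 : (-φ) x = -(φ x) := rfl
      rw [h3, abs_neg]
      exact h1 x
    · have h3 : ∀ y, (-φ) y = -(φ y) := fun y => rfl
      rw [h3, h3, h2]

end Pool.Agent.K3h57.RK
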